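import Pool.Agent.W300.FT.Stm

/-!
# Project FT, parts LOC1, LOC2, LOC4
-/

set_option autoImplicit false

namespace Pool.Agent.W530.FT.Loc

open MeasureTheory ProbabilityTheory Pool.Agent.W300.FT

instance instProbPI (V : Type) : IsProbabilityMeasure (PI V) := by
  unfold PI
  infer_instance

lemma mix_mem {V : Type} {N : Set V} {y y' : V → unitInterval} {v : V} (h : v ∈ N) :
    mix N y y' v = y v := by
  unfold mix
  rw [if_pos h]

lemma mix_not {V : Type} {N : Set V} {y y' : V → unitInterval} {v : V} (h : v ∉ N) :
    mix N y y' v = y' v := by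
  unfold mix
  rw [if_neg h]

lemma mix_meas {V : Type} (N : Set V) :
    Measurable (fun q : (V → unitInterval) × (V → unitInterval) => mix N q.1 q.2) := by
  rw [measurable_pi_iff]
  intro u
  by_cases hu : u ∈ N
  · simp only [mix_mem hu]
    exact (measurable_pi_apply u).comp measurable_fst
  · simp only [mix_not hu]
    exact (measurable_pi_apply u).comp measurable_snd

theorem loc1 : S_LOC1 := by
  intro V G F hV hF m v
  have hFv : Measurable (fun y => F y v) := (measurable_pi_apply v).comp hF
  constructor
  · have hE : MeasurableSet {q : (V → unitInterval) × ((V → unitInterval) × (V → unitInterval)) |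
        F (mix (Bal G m v) q.1 q.2.1) v = F (mix (Bal G m v) q.1 q.2.2) v} := by
      have h1 : Measurable (fun q : (V → unitInterval) × ((V → unitInterval) × (V → unitInterval)) =>
          F (mix (Bal G m v) q.1 q.2.1) v) :=
        hFv.comp ((mix_meas _).comp (measurable_fst.prodMk (measurable_fst.comp measurable_snd)))
      have h2 : Measurable (fun q : (V → unitInterval) × ((V → unitInterval) × (V → unitInterval)) =>
          F (mix (Bal G m v) q.1 q.2.2) v) :=
        hFv.comp ((mix_meas _).comp (measurable_fst.prodMk (measurable_snd.comp measurable_snd)))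
      have h3 : {q : (V → unitInterval) × ((V → unitInterval) × (V → unitInterval)) |
          F (mix (Bal G m v) q.1 q.2.1) v = F (mix (Bal G m v) q.1 q.2.2) v} =
          ⋂ k : K, {q | F (mix (Bal G m v) q.1 q.2.1) v k = F (mix (Bal G m v) q.1 q.2.2) v k} := by
        ext q
        simp only [Set.mem_ofPred_eq, Set.mem_iInter]
        exact funext_iff
      rw [h3]
      refine MeasurableSet.iInter fun k => ?_
      have h6 : Measurable (fun q : (V → unitInterval) × ((V → unitInterval) × (V → unitInterval)) =>
          (F (mix (Bal G m v) q.1 q.2.1) v k, F (mix (Bal G m v) q.1 q.2.2) v k)) :=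
        ((measurable_pi_apply k).comp h1).prodMk ((measurable_pi_apply k).comp h2)
      exact h6 (Set.to_countable {p : Bool × Bool | p.1 = p.2}).measurableSet
    have h4 := measurable_measure_prodMk_left (ν := (PI V).prod (PI V)) hE.compl
    have h5 : Loc G F m v = (fun y => ((PI V).prod (PI V)) (Prod.mk y ⁻¹'
        {q : (V → unitInterval) × ((V → unitInterval) × (V → unitInterval)) |
        F (mix (Bal G m v) q.1 q.2.1) v = F (mix (Bal G m v) q.1 q.2.2) v}ᶜ)) ⁻¹' {0} := by
      ext y
      rfl
    rw [h5]
    exact h4 (measurableSet_singleton 0)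
  · rw [measurable_pi_iff]
    intro k
    have hE : MeasurableSet {q : (V → unitInterval) × (V → unitInterval) |
        F (mix (Bal G m v) q.1 q.2) v k = true} := by
      have h1 : Measurable (fun q : (V → unitInterval) × (V → unitInterval) =>
          F (mix (Bal G m v) q.1 q.2) v k) :=
        (measurable_pi_apply k).comp (hFv.comp (mix_meas _))
      exact h1 (measurableSet_singleton true)
    have h4 := measurable_measure_prodMk_left (ν := PI V) hE
    apply measurable_to_bool
    have h5 : (fun y => Gf G F m v y k) ⁻¹' {true} = {y | 1 / 2 < PI V (Prod.mk y ⁻¹'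
        {q : (V → unitInterval) × (V → unitInterval) |
        F (mix (Bal G m v) q.1 q.2) v k = true})} := by
      ext y
      simp only [Set.mem_preimage, Set.mem_singleton_iff, Gf, decide_eq_true_eq]
      rfl
    rw [h5]
    exact measurableSet_lt measurable_const h4

lemma mix_congr {V : Type} {N : Set V} {y y' : V → unitInterval} (h : ∀ u ∈ N, y u = y' u)
    (p : V → unitInterval) : mix N y p = mix N y' p := by
  funext u
  by_cases hu : u ∈ N
  · rw [mix_mem hu, mix_mem hu, h u hu]
  · rw [mix_not hu, mix_not hu]

theorem loc2 : S_LOC2 := by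
  intro V G F m v y y' h
  constructor
  · unfold Loc
    simp only [Set.mem_ofPred_eq, mix_congr h]
  · funext k
    unfold Gf
    simp only [mix_congr h]

theorem loc4 (h1 : S_LOC1) : S_LOC4 := by
  intro V G F hV hF v hae ε hε
  by_contra hcon
  push Not at hcon
  set A : ℕ → Set (V → unitInterval) := fun r => {y | ∀ y' : V → unitInterval,
    (∀ u : V, G.dist v u ≤ r → y' u = y u) → F y' v = F y v} with hA
  have hmono : Monotone A := by
    intro r s hrs y hy y' hy'
    exact hy y' fun u hu => hy' u (hu.trans hrs)
  have hsub : ∀ r, A r ⊆ Loc G F r v := by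
    intro r y hy
    change ∀ᵐ p ∂((PI V).prod (PI V)), F (mix (Bal G r v) y p.1) v = F (mix (Bal G r v) y p.2) v
    refine Filter.Eventually.of_forall fun p => ?_
    have e : ∀ q : V → unitInterval, F (mix (Bal G r v) y q) v = F y v := by
      intro q
      refine hy _ fun u hu => ?_
      exact mix_mem hu
    rw [e, e]
  have hU : PI V (⋃ r, A r) = 1 := by
    have h2 : ∀ᵐ y ∂(PI V), y ∈ ⋃ r, A r := by
      filter_upwards [hae] with y hy
      obtain ⟨r, hr⟩ := hy
      exact Set.mem_iUnion.2 ⟨r, hr⟩
    have h8 : PI V (⋃ r, A r) = PI V Set.univ := measure_congr (Filter.eventuallyEq_univ.2 h2)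
    rw [h8, measure_univ]
  have hsup := hmono.measure_iUnion (μ := PI V)
  rw [hU] at hsup
  have h3 : ∀ r, PI V (A r) + ε ≤ 1 := by
    intro r
    have h4 := hcon r
    rw [prob_compl_eq_one_sub (h1 V G F hV hF r v).1] at h4
    have h5 : PI V (Loc G F r v) + ε ≤ 1 := by
      calc PI V (Loc G F r v) + ε ≤ PI V (Loc G F r v) + (1 - PI V (Loc G F r v)) :=
            add_le_add le_rfl h4
        _ = 1 := add_tsub_cancel_of_le prob_le_one
    exact (add_le_add (measure_mono (hsub r)) le_rfl).trans h5
  have h6 : (1 : ENNReal) + ε ≤ 1 := by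
    rw [hsup, ENNReal.iSup_add]
    rw [← hsup]
    exact iSup_le h3
  have h7 : (1 : ENNReal) < 1 + ε := ENNReal.lt_add_right ENNReal.one_ne_top hε.ne'
  exact absurd h6 (not_le.2 h7)

end Pool.Agent.W530.FT.Loc
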