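import Pool.Agent.W300.FT.Stm

/-!
# Project FT, part PRV: three independent parts, for labellings
-/

set_option autoImplicit false

namespace Pool.Agent.W530.FT

open MeasureTheory ProbabilityTheory Pool.Agent.W300.FT

instance instProbPI (V : Type) : IsProbabilityMeasure (PI V) := by
  unfold PI
  infer_instance

lemma mix_mem {V : Type} {N : Set V} {y y' : V → unitInterval} {v : V} (h : v ∈ N) :
    mix N y y' v = y v := by
  unfold mix
  rw [if_pos h]

lemma mix_not {V : Type} {N : Set V} {y y' : V → unitInterval} {v : V} (h : v ∉ N) :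
    mix N y y' v = y' v := by
  unfold mix
  rw [if_neg h]

theorem prv (h : S_PR1) (hm : S_MIX) : S_PRV := by
  intro V NL NR Na Nb hV hNa hNb hdis1 hdis2 EL ER A0 B0 a b u w mEL mER mA0 mB0 ma mb mu mw
    dEL dER dA0 dB0 da db du dw hELA hERB hae hI1 hI2
  set P := PI V with hP
  have h1 := hm V NRᶜ hV
  have h2 := hm V NL hV
  set M : ((V → unitInterval) × (V → unitInterval)) × (V → unitInterval) → (V → unitInterval) :=
    fun t => mix NRᶜ t.1.1 (mix NL t.1.2 t.2) with hMdef
  have hM : MeasurePreserving M ((P.prod P).prod P) P := by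
    have h3 := (MeasurePreserving.id P).prod h2
    have h4 := measurePreserving_prodAssoc P P P
    exact h1.comp (h3.comp h4)
  -- the merged labelling on the sets
  have eL : ∀ t, ∀ v ∈ NL, M t v = mix NRᶜ t.1.1 t.1.2 v := by
    intro t v hv
    by_cases hr : v ∈ NRᶜ
    · simp only [hMdef]
      rw [mix_mem hr, mix_mem hr]
    · simp only [hMdef]
      rw [mix_not hr, mix_not hr, mix_mem hv]
  have eR : ∀ t, ∀ v ∈ NR, M t v = mix NL t.1.2 t.2 v := by
    intro t v hv
    have hr : v ∉ NRᶜ := fun hh => hh hv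
    simp only [hMdef]
    rw [mix_not hr]
  have ea : ∀ t, ∀ v ∈ Na, M t v = t.1.1 v := by
    intro t v hv
    have hr : v ∈ NRᶜ := fun hh => Set.disjoint_left.1 hdis1 hv hh
    simp only [hMdef]
    rw [mix_mem hr]
  have eb : ∀ t, ∀ v ∈ Nb, M t v = t.2 v := by
    intro t v hv
    rw [eR t v (hNb hv), mix_not (fun hh => Set.disjoint_left.1 hdis2 hv hh)]
  have ea' : ∀ p : (V → unitInterval) × (V → unitInterval), ∀ v ∈ Na, mix NRᶜ p.1 p.2 v = p.1 v := by
    intro p v hv
    exact mix_mem (fun hh => Set.disjoint_left.1 hdis1 hv hh)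
  have eb' : ∀ p : (V → unitInterval) × (V → unitInterval), ∀ v ∈ Nb, mix NL p.1 p.2 v = p.2 v := by
    intro p v hv
    exact mix_not (fun hh => Set.disjoint_left.1 hdis2 hv hh)
  have key := h (V → unitInterval) (V → unitInterval) (V → unitInterval) P P P inferInstance
    inferInstance inferInstance {q | mix NRᶜ q.1 q.2 ∈ EL} {q | mix NL q.1 q.2 ∈ ER} A0 B0 a b
    (fun q => u (mix NRᶜ q.1 q.2)) (fun q => w (mix NL q.1 q.2)) (h1.measurable mEL)
    (h2.measurable mER) mA0 mB0 ma mb (mu.comp h1.measurable) (mw.comp h2.measurable) ?_ ?_ ?_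
    hI1 hI2
  · have h5 : P (EL ∩ ER) = ((P.prod P).prod P) (M ⁻¹' (EL ∩ ER)) :=
      (hM.measure_preimage (mEL.inter mER).nullMeasurableSet).symm
    rw [h5, ← key]
    congr 1
    ext t
    simp only [Set.mem_preimage, Set.mem_inter_iff, Set.mem_setOf_eq]
    rw [show (M t ∈ EL) = (mix NRᶜ t.1.1 t.1.2 ∈ EL) from dEL _ _ (eL t),
      show (M t ∈ ER) = (mix NL t.1.2 t.2 ∈ ER) from dER _ _ (eR t)]
  · intro p hp
    have h6 : (mix NRᶜ p.1 p.2 ∈ A0) = (p.1 ∈ A0) := dA0 _ _ (ea' p)
    rw [← h6]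
    exact hELA hp
  · intro p hp
    have h6 : (mix NL p.1 p.2 ∈ B0) = (p.2 ∈ B0) := dB0 _ _ (eb' p)
    rw [← h6]
    exact hERB hp
  · have h7 : ∀ᵐ t ∂((P.prod P).prod P), M t ∈ EL → M t ∈ ER → ∀ i,
        (a (M t) i && b (M t) i) = xor (u (M t) i) (w (M t) i) :=
      hM.quasiMeasurePreserving.ae hae
    filter_upwards [h7] with t ht h8 h9 i
    have h10 : M t ∈ EL := by
      rw [show (M t ∈ EL) = (mix NRᶜ t.1.1 t.1.2 ∈ EL) from dEL _ _ (eL t)]
      exact h8
    have h11 : M t ∈ ER := by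
      rw [show (M t ∈ ER) = (mix NL t.1.2 t.2 ∈ ER) from dER _ _ (eR t)]
      exact h9
    have h12 := ht h10 h11 i
    rw [da _ _ (ea t), db _ _ (eb t), du _ _ (eL t), dw _ _ (eR t)] at h12
    exact h12

end Pool.Agent.W530.FT
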